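import Mathlib

/-!
# An inner product invariant under the linear isometries of a finite-dimensional normed space
-/

set_option autoImplicit false
set_option linter.unusedVariables false

namespace Pool.Agent.W5h45.BM

open MeasureTheory Metric

section

variable {V : Type*} [NormedAddCommGroup V] [NormedSpace ℝ V] [FiniteDimensional ℝ V]

/-- pull-back of functionals by a linear isometry -/
noncomputable def pb (g : V ≃ₗᵢ[ℝ] V) : StrongDual ℝ V ≃ₗᵢ[ℝ] StrongDual ℝ V where
  toFun f := f.comp (g.toContinuousLinearEquiv : V →L[ℝ] V)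
  invFun f := f.comp (g.symm.toContinuousLinearEquiv : V →L[ℝ] V)
  map_add' f f' := by ext x; simp
  map_smul' c f := by ext x; simp
  left_inv f := by ext x; simp
  right_inv f := by ext x; simp
  norm_map' f := by
    show ‖f.comp (g.toContinuousLinearEquiv : V →L[ℝ] V)‖ = ‖f‖
    refine le_antisymm (ContinuousLinearMap.opNorm_le_bound _ (norm_nonneg _) fun x => ?_)
      (ContinuousLinearMap.opNorm_le_bound _ (norm_nonneg _) fun x => ?_)
    · have := f.le_opNorm (g x)
      rwa [g.norm_map] at this
    · have := (f.comp (g.toContinuousLinearEquiv : V →L[ℝ] V)).le_opNorm (g.symm x)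
      simpa using this

omit [FiniteDimensional ℝ V] in
lemma pb_apply (g : V ≃ₗᵢ[ℝ] V) (f : StrongDual ℝ V) (x : V) : pb g f x = f (g x) := rfl

theorem exists_inner : ∃ B : V → V → ℝ, (∀ x y z, B (x + y) z = B x z + B y z) ∧
    (∀ (c : ℝ) (x z : V), B (c • x) z = c * B x z) ∧ (∀ x y, B x y = B y x) ∧
    (∀ x, x ≠ 0 → 0 < B x x) ∧ ∀ (g : V ≃ₗᵢ[ℝ] V) (x y : V), B (g x) (g y) = B x y := by
  borelize (StrongDual ℝ V)
  set μ : Measure (StrongDual ℝ V) := MeasureTheory.Measure.addHaar with hμ
  set S : Set (StrongDual ℝ V) := closedBall 0 1 with hS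
  have hSc : IsCompact S := isCompact_closedBall 0 1
  have hint : ∀ x y : V, IntegrableOn (fun f : StrongDual ℝ V => f x * f y) S μ := fun x y => by
    refine ContinuousOn.integrableOn_compact hSc ?_
    fun_prop
  refine ⟨fun x y => ∫ f in S, f x * f y ∂μ, ?_, ?_, ?_, ?_, ?_⟩
  · intro x y z
    show ∫ f in S, f (x + y) * f z ∂μ = ∫ f in S, f x * f z ∂μ + ∫ f in S, f y * f z ∂μ
    rw [← integral_add (hint x z) (hint y z)]
    simp only [map_add, add_mul]
  · intro c x z
    show ∫ f in S, f (c • x) * f z ∂μ = c * ∫ f in S, f x * f z ∂μ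
    rw [← integral_const_mul]
    simp only [map_smul, smul_eq_mul, mul_assoc]
  · intro x y
    show ∫ f in S, f x * f y ∂μ = ∫ f in S, f y * f x ∂μ
    simp only [mul_comm]
  · intro x hx
    have h1 : 0 ≤ᵐ[μ.restrict S] fun f : StrongDual ℝ V => f x * f x :=
      Filter.Eventually.of_forall fun f => mul_self_nonneg _
    rw [setIntegral_pos_iff_support_of_nonneg_ae h1 (hint x x)]
    obtain ⟨f0, hf0, hf1⟩ := exists_dual_vector ℝ x (norm_ne_zero_iff.2 hx)
    have hopen : IsOpen ({f : StrongDual ℝ V | f x ≠ 0} ∩ ball 0 1) := by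
      refine IsOpen.inter ?_ isOpen_ball
      exact isOpen_ne_fun (by fun_prop) continuous_const
    have hne : ({f : StrongDual ℝ V | f x ≠ 0} ∩ ball 0 1).Nonempty := by
      refine ⟨(1/2 : ℝ) • f0, ?_, ?_⟩
      · show ((1/2 : ℝ) • f0) x ≠ 0
        have : ((1/2 : ℝ) • f0) x = (1/2) * ‖x‖ := by
          rw [smul_apply, hf1]
          simp
        rw [this]
        have := norm_pos_iff.2 hx
        positivity
      · rw [mem_ball_zero_iff, norm_smul, hf0]
        norm_num
    refine lt_of_lt_of_le (hopen.measure_pos μ hne) (measure_mono ?_)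
    rintro f ⟨hf, hfb⟩
    refine ⟨?_, ball_subset_closedBall hfb⟩
    show f x * f x ≠ 0
    exact mul_ne_zero hf hf
  · intro g x y
    -- the pull-back preserves the measure
    have hpre : (pb g) ⁻¹' S = S := by
      ext f
      simp only [hS, Set.mem_preimage, mem_closedBall_zero_iff, LinearIsometryEquiv.norm_map]
    have hdet : LinearMap.det ((pb g).toLinearEquiv : StrongDual ℝ V →ₗ[ℝ] StrongDual ℝ V) ≠ 0 :=
      (LinearEquiv.isUnit_det' (pb g).toLinearEquiv).ne_zero
    have hmap : μ.map (pb g) = μ := by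
      have h1 := MeasureTheory.Measure.map_linearMap_addHaar_eq_smul_addHaar μ hdet
      have h2 : (⇑((pb g).toLinearEquiv : StrongDual ℝ V →ₗ[ℝ] StrongDual ℝ V) :
          StrongDual ℝ V → StrongDual ℝ V) = pb g := rfl
      rw [h2] at h1
      have hm : Measurable (pb g) := (pb g).continuous.measurable
      have h3 : μ.map (pb g) S = μ S := by
        rw [Measure.map_apply hm isClosed_closedBall.measurableSet, hpre]
      rw [h1] at h3
      rw [h1]
      have hpos : μ S ≠ 0 := by
        have : 0 < μ (ball (0 : StrongDual ℝ V) 1) := isOpen_ball.measure_pos μ ⟨0, by simp⟩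
        exact (lt_of_lt_of_le this (measure_mono ball_subset_closedBall)).ne'
      have hfin : μ S ≠ ⊤ := hSc.measure_lt_top.ne
      set c := ENNReal.ofReal |(LinearMap.det
        ((pb g).toLinearEquiv : StrongDual ℝ V →ₗ[ℝ] StrongDual ℝ V))⁻¹| with hc
      have h4 : c * μ S = 1 * μ S := by simpa using h3
      have h5 : c = 1 := (ENNReal.mul_left_inj hpos hfin).1 h4
      rw [h5, one_smul]
    have hmp : MeasurePreserving (pb g) μ μ := ⟨(pb g).continuous.measurable, hmap⟩
    have he : MeasurableEmbedding (pb g) :=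
      (pb g).toHomeomorph.measurableEmbedding
    have := hmp.setIntegral_preimage_emb he (fun f : StrongDual ℝ V => f x * f y) S
    rw [hpre] at this
    exact this

end

end Pool.Agent.W5h45.BM
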