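import Mathlib
import Pool.Agent.W5h45.BM.Haar

/-!
# Finite rank operators with an adjoint

`Adj a a'`: the operators `a`, `a'` have finite rank, and on all sufficiently large finite-dimensional
subspaces `V` they are adjoint to each other for all inner products which are invariant under the
linear isometries of `V`.
-/

set_option autoImplicit false
set_option linter.unusedVariables false

namespace Pool.Agent.W5h45.BM

variable {E : Type*} [NormedAddCommGroup E] [NormedSpace ℝ E]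

/-- `B` is on `V` an inner product invariant under the linear isometries of `V` -/
structure IsInn (V : Submodule ℝ E) (B : E → E → ℝ) : Prop where
  add : ∀ x ∈ V, ∀ y ∈ V, ∀ z ∈ V, B (x + y) z = B x z + B y z
  smul : ∀ c : ℝ, ∀ x ∈ V, ∀ z ∈ V, B (c • x) z = c * B x z
  symm : ∀ x ∈ V, ∀ y ∈ V, B x y = B y x
  pos : ∀ x ∈ V, x ≠ 0 → 0 < B x x
  inv : ∀ (g : V ≃ₗᵢ[ℝ] V) (x y : V), B (g x) (g y) = B x y

theorem exists_isInn (V : Submodule ℝ E) [FiniteDimensional ℝ V] : ∃ B, IsInn V B := by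
  classical
  obtain ⟨B, h1, h2, h3, h4, h5⟩ := exists_inner (V := V)
  refine ⟨fun x y => if h : x ∈ V ∧ y ∈ V then B ⟨x, h.1⟩ ⟨y, h.2⟩ else 0, ?_, ?_, ?_, ?_, ?_⟩
  · intro x hx y hy z hz
    have hxy := V.add_mem hx hy
    simp only [hx, hy, hz, hxy, and_self, dif_pos]
    exact h1 ⟨x, hx⟩ ⟨y, hy⟩ ⟨z, hz⟩
  · intro c x hx z hz
    have hxy := V.smul_mem c hx
    simp only [hx, hz, hxy, and_self, dif_pos]
    exact h2 c ⟨x, hx⟩ ⟨z, hz⟩
  · intro x hx y hy
    simp only [hx, hy, and_self, dif_pos]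
    exact h3 _ _
  · intro x hx hx0
    simp only [hx, and_self, dif_pos]
    exact h4 _ fun h => hx0 (by simpa using congrArg Subtype.val h)
  · intro g x y
    simp only [SetLike.coe_mem, and_self, dif_pos, Subtype.coe_eta]
    exact h5 g x y

namespace IsInn

variable {V : Submodule ℝ E} {B : E → E → ℝ} (h : IsInn V B)
include h

lemma add_right {x y z : E} (hx : x ∈ V) (hy : y ∈ V) (hz : z ∈ V) :
    B x (y + z) = B x y + B x z := by
  rw [h.symm x hx _ (V.add_mem hy hz), h.add y hy z hz x hx, h.symm y hy x hx, h.symm z hz x hx]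

lemma smul_right (c : ℝ) {x y : E} (hx : x ∈ V) (hy : y ∈ V) : B x (c • y) = c * B x y := by
  rw [h.symm x hx _ (V.smul_mem c hy), h.smul c y hy x hx, h.symm y hy x hx]

lemma zero_left {x : E} (hx : x ∈ V) : B 0 x = 0 := by
  have := h.smul 0 x hx x hx
  simpa using this

lemma zero_right {x : E} (hx : x ∈ V) : B x 0 = 0 := by
  rw [h.symm x hx 0 V.zero_mem, h.zero_left hx]

lemma nonneg {x : E} (hx : x ∈ V) : 0 ≤ B x x := by
  rcases eq_or_ne x 0 with rfl | h0
  · exact (h.zero_left hx).ge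
  · exact (h.pos x hx h0).le

lemma eq_zero {x : E} (hx : x ∈ V) (h0 : B x x = 0) : x = 0 := by
  by_contra hne
  exact (h.pos x hx hne).ne' h0

lemma sub_left {x y z : E} (hx : x ∈ V) (hy : y ∈ V) (hz : z ∈ V) :
    B (x - y) z = B x z - B y z := by
  have h1 := h.add x hx (-y) (V.neg_mem hy) z hz
  have h2 := h.smul (-1) y hy z hz
  rw [neg_one_smul] at h2
  rw [sub_eq_add_neg, h1, h2]
  ring

lemma sub_right {x y z : E} (hx : x ∈ V) (hy : y ∈ V) (hz : z ∈ V) :
    B x (y - z) = B x y - B x z := by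
  rw [h.symm x hx _ (V.sub_mem hy hz), h.sub_left hy hz hx, h.symm y hy x hx, h.symm z hz x hx]

/-- Cauchy-Schwarz -/
lemma cs {x y : E} (hx : x ∈ V) (hy : y ∈ V) : B x y ^ 2 ≤ B x x * B y y := by
  have key : ∀ t : ℝ, 0 ≤ B x x * (t * t) + 2 * B x y * t + B y y := fun t => by
    have h1 := h.nonneg (V.add_mem (V.smul_mem t hx) hy)
    rw [h.add _ (V.smul_mem t hx) _ hy _ (V.add_mem (V.smul_mem t hx) hy),
      h.add_right (V.smul_mem t hx) (V.smul_mem t hx) hy, h.add_right hy (V.smul_mem t hx) hy,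
      h.smul t x hx _ (V.smul_mem t hx), h.smul_right t hx hx, h.smul t x hx y hy,
      h.smul_right t hy hx, h.symm y hy x hx] at h1
    nlinarith [h1]
  have := discrim_le_zero key
  rw [discrim] at this
  nlinarith [this]

end IsInn

/-- conjugation by an isometry -/
noncomputable def cj (T : E ≃ₗᵢ[ℝ] E) (a : E →L[ℝ] E) : E →L[ℝ] E :=
  (T.toContinuousLinearEquiv : E →L[ℝ] E) ∘L a ∘L (T.symm.toContinuousLinearEquiv : E →L[ℝ] E)

lemma cj_apply (T : E ≃ₗᵢ[ℝ] E) (a : E →L[ℝ] E) (x : E) : cj T a x = T (a (T.symm x)) := rfl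

/-- transport of an invariant inner product -/
lemma IsInn.conj {V : Submodule ℝ E} {B : E → E → ℝ} (h : IsInn V B) (T : E ≃ₗᵢ[ℝ] E) :
    IsInn (V.map (T.symm.toLinearEquiv : E →ₗ[ℝ] E)) fun x y => B (T x) (T y) := by
  have hm : ∀ {x : E}, x ∈ V.map (T.symm.toLinearEquiv : E →ₗ[ℝ] E) → T x ∈ V := by
    rintro x ⟨y, hy, rfl⟩
    simpa using hy
  refine ⟨fun x hx y hy z hz => ?_, fun c x hx z hz => ?_, fun x hx y hy => ?_,
    fun x hx hx0 => ?_, fun g x y => ?_⟩
  · simpa using h.add _ (hm hx) _ (hm hy) _ (hm hz)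
  · simpa using h.smul c _ (hm hx) _ (hm hz)
  · exact h.symm _ (hm hx) _ (hm hy)
  · exact h.pos _ (hm hx) fun h0 => hx0 (by simpa using h0)
  · set σ := T.symm.submoduleMap V with hσ
    have hσa : ∀ u : V, ((σ u : V.map (T.symm.toLinearEquiv : E →ₗ[ℝ] E)) : E) = T.symm u :=
      fun u => rfl
    have hσs : ∀ v : V.map (T.symm.toLinearEquiv : E →ₗ[ℝ] E), ((σ.symm v : V) : E) = T v := by
      intro v
      obtain ⟨u, rfl⟩ := σ.surjective v
      rw [σ.symm_apply_apply, hσa]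
      simp
    have h1 := h.inv (σ.trans (g.trans σ.symm)) (σ.symm x) (σ.symm y)
    simp only [LinearIsometryEquiv.trans_apply, LinearIsometryEquiv.apply_symm_apply, hσs] at h1
    exact h1

/-- `a` and `a'` have finite rank and are adjoint to each other for the invariant inner products on
all large finite-dimensional subspaces -/
def Adj (a a' : E →L[ℝ] E) : Prop :=
  ∃ V₀ : Submodule ℝ E, FiniteDimensional ℝ V₀ ∧ (∀ x, a x ∈ V₀) ∧ (∀ x, a' x ∈ V₀) ∧
    ∀ V : Submodule ℝ E, V₀ ≤ V → FiniteDimensional ℝ V → ∀ B, IsInn V B →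
      ∀ x ∈ V, ∀ y ∈ V, B (a x) y = B x (a' y)

namespace Adj

variable {a a' c c' : E →L[ℝ] E}

lemma symm (h : Adj a a') : Adj a' a := by
  obtain ⟨V₀, h1, h2, h3, h4⟩ := h
  refine ⟨V₀, h1, h3, h2, fun V hV hf B hB x hx y hy => ?_⟩
  rw [hB.symm _ (hV (h3 x)) y hy, ← h4 V hV hf B hB y hy x hx, hB.symm _ (hV (h2 y)) x hx]

lemma add (h : Adj a a') (k : Adj c c') : Adj (a + c) (a' + c') := by
  obtain ⟨V₀, h1, h2, h3, h4⟩ := h
  obtain ⟨V₁, k1, k2, k3, k4⟩ := k
  refine ⟨V₀ ⊔ V₁, inferInstance, fun x => ?_, fun x => ?_, fun V hV hf B hB x hx y hy => ?_⟩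
  · exact Submodule.add_mem_sup (h2 x) (k2 x)
  · exact Submodule.add_mem_sup (h3 x) (k3 x)
  · have e0 := le_sup_left.trans hV
    have e1 := le_sup_right.trans hV
    show B (a x + c x) y = B x (a' y + c' y)
    rw [hB.add _ (e0 (h2 x)) _ (e1 (k2 x)) y hy, hB.add_right hx (e0 (h3 y)) (e1 (k3 y)),
      h4 V e0 hf B hB x hx y hy, k4 V e1 hf B hB x hx y hy]

lemma smul (h : Adj a a') (r : ℝ) : Adj (r • a) (r • a') := by
  obtain ⟨V₀, h1, h2, h3, h4⟩ := h
  refine ⟨V₀, h1, fun x => V₀.smul_mem r (h2 x), fun x => V₀.smul_mem r (h3 x),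
    fun V hV hf B hB x hx y hy => ?_⟩
  show B (r • a x) y = B x (r • a' y)
  rw [hB.smul r _ (hV (h2 x)) y hy, hB.smul_right r hx (hV (h3 y)), h4 V hV hf B hB x hx y hy]

lemma neg (h : Adj a a') : Adj (-a) (-a') := by
  have := h.smul (-1)
  rwa [neg_one_smul, neg_one_smul] at this

lemma sub (h : Adj a a') (k : Adj c c') : Adj (a - c) (a' - c') := by
  rw [sub_eq_add_neg, sub_eq_add_neg]
  exact h.add k.neg

lemma mul (h : Adj a a') (k : Adj c c') : Adj (a * c) (c' * a') := by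
  obtain ⟨V₀, h1, h2, h3, h4⟩ := h
  obtain ⟨V₁, k1, k2, k3, k4⟩ := k
  refine ⟨V₀ ⊔ V₁, inferInstance, fun x => ?_, fun x => ?_, fun V hV hf B hB x hx y hy => ?_⟩
  · exact le_sup_left (a := V₀) (b := V₁) (h2 _)
  · exact le_sup_right (a := V₀) (b := V₁) (k3 _)
  · have e0 := le_sup_left.trans hV
    have e1 := le_sup_right.trans hV
    show B (a (c x)) y = B x (c' (a' y))
    rw [h4 V e0 hf B hB _ (e1 (k2 x)) y hy, k4 V e1 hf B hB x hx _ (e0 (h3 y))]

lemma conj (h : Adj a a') (T : E ≃ₗᵢ[ℝ] E) : Adj (cj T a) (cj T a') := by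
  obtain ⟨V₀, h1, h2, h3, h4⟩ := h
  refine ⟨V₀.map (T.toLinearEquiv : E →ₗ[ℝ] E), inferInstance, fun x => ?_, fun x => ?_,
    fun V hV hf B hB x hx y hy => ?_⟩
  · exact ⟨_, h2 (T.symm x), rfl⟩
  · exact ⟨_, h3 (T.symm x), rfl⟩
  · have hfin : FiniteDimensional ℝ (V.map (T.symm.toLinearEquiv : E →ₗ[ℝ] E)) := inferInstance
    have hle : V₀ ≤ V.map (T.symm.toLinearEquiv : E →ₗ[ℝ] E) := fun z hz =>
      ⟨T z, hV ⟨z, hz, rfl⟩, by simp⟩
    have := h4 _ hle hfin _ (hB.conj T) (T.symm x) ⟨x, hx, rfl⟩ (T.symm y) ⟨y, hy, rfl⟩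
    simpa [cj_apply] using this

lemma range_fin (h : Adj a a') : FiniteDimensional ℝ (LinearMap.range (a : E →ₗ[ℝ] E)) := by
  obtain ⟨V₀, h1, h2, h3, h4⟩ := h
  have : LinearMap.range (a : E →ₗ[ℝ] E) ≤ V₀ := by
    rintro _ ⟨x, rfl⟩
    exact h2 x
  exact Submodule.finiteDimensional_of_le this

/-- one large subspace through given points -/
lemma exists_V (h : Adj a a') (V₁ : Submodule ℝ E) [FiniteDimensional ℝ V₁] :
    ∃ (V : Submodule ℝ E) (B : E → E → ℝ), V₁ ≤ V ∧ FiniteDimensional ℝ V ∧ IsInn V B ∧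
      (∀ x, a x ∈ V) ∧ (∀ x, a' x ∈ V) ∧ ∀ x ∈ V, ∀ y ∈ V, B (a x) y = B x (a' y) := by
  obtain ⟨V₀, h1, h2, h3, h4⟩ := h
  obtain ⟨B, hB⟩ := exists_isInn (V₀ ⊔ V₁)
  exact ⟨V₀ ⊔ V₁, B, le_sup_right, inferInstance, hB,
    fun x => le_sup_left (a := V₀) (b := V₁) (h2 x),
    fun x => le_sup_left (a := V₀) (b := V₁) (h3 x),
    h4 _ le_sup_left inferInstance B hB⟩

lemma eq_zero (h : Adj a a') (h0 : a' * a = 0) : a = 0 := by
  ext x
  obtain ⟨V, B, hV, hf, hB, h2, h3, h4⟩ := h.exists_V (Submodule.span ℝ {x})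
  have hx : x ∈ V := hV (Submodule.mem_span_singleton_self x)
  have h5 : B (a x) (a x) = 0 := by
    rw [h4 x hx (a x) (h2 x)]
    have : a' (a x) = 0 := by
      have := congrArg (fun u : E →L[ℝ] E => u x) h0
      simpa using this
    rw [this, hB.zero_right hx]
  simpa using hB.eq_zero (h2 x) h5

lemma unique (h : Adj a a') (k : Adj a c') : a' = c' := by
  have h1 := (h.sub k).symm
  rw [sub_self] at h1
  have := h1.eq_zero (by simp)
  exact sub_eq_zero.1 this

lemma eq_zero' (h : Adj a a') (h0 : a' = 0) : a = 0 := by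
  subst h0
  exact h.eq_zero (by simp)

end Adj

/-- a finite rank perturbation of the identity which is isometric has an adjoint -/
theorem adj_of_isometry (T : E ≃ₗᵢ[ℝ] E) {V₀ : Submodule ℝ E} [FiniteDimensional ℝ V₀]
    (h : ∀ x, T x - x ∈ V₀) :
    Adj ((T.toContinuousLinearEquiv : E →L[ℝ] E) - 1)
      ((T.symm.toContinuousLinearEquiv : E →L[ℝ] E) - 1) := by
  have h' : ∀ x, T.symm x - x ∈ V₀ := fun x => by
    have := h (T.symm x)
    rw [T.apply_symm_apply] at this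
    have h2 := V₀.neg_mem this
    rwa [neg_sub] at h2
  refine ⟨V₀, inferInstance, h, h', fun V hV hf B hB x hx y hy => ?_⟩
  -- `T` maps `V` onto `V`
  have m1 : ∀ z ∈ V, T z ∈ V := fun z hz => by
    have := V.add_mem (hV (h z)) hz
    rwa [sub_add_cancel] at this
  have m2 : ∀ z ∈ V, T.symm z ∈ V := fun z hz => by
    have := V.add_mem (hV (h' z)) hz
    rwa [sub_add_cancel] at this
  let g : V ≃ₗᵢ[ℝ] V :=
    { toFun := fun z => ⟨T z, m1 z z.2⟩
      invFun := fun z => ⟨T.symm z, m2 z z.2⟩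
      map_add' := fun z w => by ext; simp
      map_smul' := fun c z => by ext; simp
      left_inv := fun z => by ext; simp
      right_inv := fun z => by ext; simp
      norm_map' := fun z => by
        show ‖T (z : E)‖ = ‖(z : E)‖
        exact T.norm_map _ }
  have h1 := hB.inv g ⟨x, hx⟩ ⟨T.symm y, m2 y hy⟩
  have h2 : B (T x) y = B x (T.symm y) := by
    have e1 : ((g ⟨x, hx⟩ : V) : E) = T x := rfl
    have e2 : ((g ⟨T.symm y, m2 y hy⟩ : V) : E) = y := T.apply_symm_apply y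
    rw [e1, e2] at h1
    exact h1
  show B (T x - x) y = B x (T.symm y - y)
  rw [hB.sub_left (m1 x hx) hx hy, hB.sub_right hx (m2 y hy) hy, h2]

end Pool.Agent.W5h45.BM
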