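import Mathlib
import Pool.Agent.W5h45.BM.Adj

/-!
# Minimal projections
-/

set_option autoImplicit false
set_option linter.unusedVariables false

namespace Pool.Agent.W5h45.BM

/-- a nonzero symmetric operator on a finite-dimensional space has a nonzero eigenvalue -/
lemma eig_aux {W : Type*} [AddCommGroup W] [Module ℝ W] [FiniteDimensional ℝ W] (B : W → W → ℝ)
    (hadd : ∀ x y z, B (x + y) z = B x z + B y z) (hsmul : ∀ (c : ℝ) x z, B (c • x) z = c * B x z)
    (hsymm : ∀ x y, B x y = B y x) (hpos : ∀ x, x ≠ 0 → 0 < B x x) (h : W →ₗ[ℝ] W)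
    (hh : ∀ x y, B (h x) y = B x (h y)) (hne : h ≠ 0) :
    ∃ c : ℝ, c ≠ 0 ∧ ∃ x : W, x ≠ 0 ∧ h x = c • x := by
  have h00 : B 0 0 = 0 := by
    have := hsmul 0 0 0
    simpa using this
  let core : InnerProductSpace.Core ℝ W :=
    { inner := B
      conj_inner_symm := fun x y => hsymm y x
      re_inner_nonneg := fun x => by
        rcases eq_or_ne x 0 with rfl | hx
        · exact h00.ge
        · exact (hpos x hx).le
      add_left := hadd
      smul_left := fun x y c => hsmul c x y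
      definite := fun x hx => by
        by_contra h0
        exact (hpos x h0).ne' hx }
  let i1 : NormedAddCommGroup W := core.toNormedAddCommGroup
  let i2 : InnerProductSpace ℝ W := InnerProductSpace.ofCore core.toCore
  have hsym : LinearMap.IsSymmetric h := fun x y => hh x y
  by_contra hcon
  push Not at hcon
  apply hne
  refine (hsym.eigenvectorBasis rfl).toBasis.ext fun i => ?_
  have h1 := hsym.apply_eigenvectorBasis rfl i
  have h2 : (hsym.eigenvectorBasis rfl i) ≠ 0 := (hsym.eigenvectorBasis rfl).orthonormal.ne_zero i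
  rw [OrthonormalBasis.coe_toBasis]
  by_cases hc : hsym.eigenvalues rfl i = 0
  · rw [h1, hc]
    simp
  · exact absurd h1 (hcon _ hc _ h2)

variable {E : Type*} [NormedAddCommGroup E] [NormedSpace ℝ E]

/-- rank -/
noncomputable def rk (a : E →L[ℝ] E) : ℕ := Module.finrank ℝ (LinearMap.range (a : E →ₗ[ℝ] E))

lemma eig {h : E →L[ℝ] E} (hh : Adj h h) (hne : h ≠ 0) :
    ∃ c : ℝ, c ≠ 0 ∧ ∃ x : E, x ≠ 0 ∧ h x = c • x := by
  obtain ⟨x0, hx0⟩ : ∃ x, h x ≠ 0 := by
    by_contra hcon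
    push Not at hcon
    exact hne (by ext x; simpa using hcon x)
  obtain ⟨V, B, hV, hf, hB, h2, h3, h4⟩ := hh.exists_V (Submodule.span ℝ {x0})
  have hx0V : x0 ∈ V := hV (Submodule.mem_span_singleton_self x0)
  let k : V →ₗ[ℝ] V :=
    { toFun := fun x => ⟨h x, h2 x⟩
      map_add' := fun x y => by ext; simp
      map_smul' := fun c x => by ext; simp }
  have hk : k ≠ 0 := by
    intro h0
    apply hx0
    have := congrArg (fun f : V →ₗ[ℝ] V => ((f ⟨x0, hx0V⟩ : V) : E)) h0
    simpa [k] using this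
  obtain ⟨c, hc, x, hx, hkx⟩ := eig_aux (fun x y : V => B x y)
    (fun x y z => hB.add _ x.2 _ y.2 _ z.2) (fun c x z => hB.smul c _ x.2 _ z.2)
    (fun x y => hB.symm _ x.2 _ y.2)
    (fun x hx => hB.pos _ x.2 fun h0 => hx (Subtype.ext h0)) k
    (fun x y => h4 _ x.2 _ y.2) hk
  exact ⟨c, hc, x, fun h0 => hx (Subtype.ext h0), congrArg Subtype.val hkx⟩

/-- a nonzero self-adjoint operator of minimal rank is a multiple of a projection -/
lemma min_sq {h : E →L[ℝ] E} (hh : Adj h h) (hne : h ≠ 0)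
    (hmin : ∀ k : E →L[ℝ] E, Adj k k → k ≠ 0 → rk h ≤ rk k) : ∃ c : ℝ, c ≠ 0 ∧ h * h = c • h := by
  obtain ⟨c, hc, x, hx, hhx⟩ := eig hh hne
  refine ⟨c, hc, ?_⟩
  by_contra hcon
  have hk : h * h - c • h ≠ 0 := fun h0 => hcon (sub_eq_zero.1 h0)
  have hadj : Adj (h * h - c • h) (h * h - c • h) := (hh.mul hh).sub (hh.smul c)
  have h1 := hmin _ hadj hk
  have hfin := hh.range_fin
  set R := LinearMap.range (h : E →ₗ[ℝ] E) with hR
  let φ : R →ₗ[ℝ] R :=
    { toFun := fun y => ⟨h y - c • (y : E), R.sub_mem ⟨y, rfl⟩ (R.smul_mem c y.2)⟩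
      map_add' := fun y z => by
        ext
        show h ((y : E) + z) - c • ((y : E) + z) = h y - c • (y : E) + (h z - c • (z : E))
        rw [map_add, smul_add]
        abel
      map_smul' := fun r y => by
        ext
        show h (r • (y : E)) - c • (r • (y : E)) = r • (h y - c • (y : E))
        rw [map_smul, smul_sub, smul_comm c r] }
  have hxR : x ∈ R := ⟨c⁻¹ • x, by
    show h (c⁻¹ • x) = x
    rw [map_smul, hhx, smul_smul, inv_mul_cancel₀ hc, one_smul]⟩
  have hker : (⟨x, hxR⟩ : R) ∈ LinearMap.ker φ := by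
    rw [LinearMap.mem_ker]
    ext
    show h x - c • x = 0
    rw [hhx, sub_self]
  have hkpos : 0 < Module.finrank ℝ (LinearMap.ker φ) := by
    rw [Module.finrank_pos_iff]
    exact ⟨⟨⟨⟨x, hxR⟩, hker⟩, 0, fun h0 => hx (by
      have := congrArg (fun z : LinearMap.ker φ => ((z : R) : E)) h0
      simpa using this)⟩⟩
  have hsum := LinearMap.finrank_range_add_finrank_ker φ
  have hle : rk (h * h - c • h) ≤ Module.finrank ℝ (LinearMap.range φ) := by
    have hsub : LinearMap.range ((h * h - c • h : E →L[ℝ] E) : E →ₗ[ℝ] E) ≤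
        (LinearMap.range φ).map R.subtype := by
      rintro _ ⟨y, rfl⟩
      refine ⟨φ ⟨h y, ⟨y, rfl⟩⟩, ⟨_, rfl⟩, ?_⟩
      show h (h y) - c • h y = (h * h - c • h) y
      simp
    exact (Submodule.finrank_mono hsub).trans (Submodule.finrank_map_le _ _)
  have : rk h = Module.finrank ℝ R := rfl
  omega

/-- minimal projections -/
structure Mp (e : E →L[ℝ] E) : Prop where
  adj : Adj e e
  idem : e * e = e
  ne : e ≠ 0
  min : ∀ k : E →L[ℝ] E, Adj k k → k ≠ 0 → rk e ≤ rk k

theorem exists_Mp {a a' : E →L[ℝ] E} (h : Adj a a') (ha : a ≠ 0) : ∃ e : E →L[ℝ] E, Mp e := by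
  classical
  have hex : ∃ n, ∃ k : E →L[ℝ] E, Adj k k ∧ k ≠ 0 ∧ rk k = n :=
    ⟨_, a' * a, h.symm.mul h, fun h0 => ha (h.eq_zero h0), rfl⟩
  obtain ⟨k, hk, hk0, hkn⟩ := Nat.find_spec hex
  have hmin : ∀ k', Adj k' k' → k' ≠ 0 → rk k ≤ rk k' := fun k' h1 h2 => by
    rw [hkn]
    exact Nat.find_min' hex ⟨k', h1, h2, rfl⟩
  obtain ⟨c, hc, hcc⟩ := min_sq hk hk0 hmin
  have hrk : rk (c⁻¹ • k) ≤ rk k := by
    have hfin := hk.range_fin
    refine Submodule.finrank_mono ?_
    rintro _ ⟨y, rfl⟩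
    refine ⟨c⁻¹ • y, ?_⟩
    simp
  refine ⟨c⁻¹ • k, hk.smul _, ?_, ?_, fun k' h1 h2 => hrk.trans (hmin k' h1 h2)⟩
  · rw [smul_mul_smul_comm, hcc, smul_smul]
    congr 1
    field_simp
  · exact smul_ne_zero (inv_ne_zero hc) hk0

namespace Mp

variable {e f : E →L[ℝ] E}

lemma app (he : Mp e) (x : E) : e (e x) = e x := by
  have := congrArg (fun u : E →L[ℝ] E => u x) he.idem
  simpa using this

lemma exists_vec (he : Mp e) : ∃ x : E, x ≠ 0 ∧ e x = x := by
  obtain ⟨x0, hx0⟩ : ∃ x, e x ≠ 0 := by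
    by_contra hcon
    push Not at hcon
    exact he.ne (by ext x; simpa using hcon x)
  exact ⟨e x0, hx0, he.app x0⟩

/-- if the range of `f` is contained in the range of `e`, then they are equal -/
lemma range_eq {u : E →L[ℝ] E} (he : Mp e) (hu : Adj u u) (hu0 : u ≠ 0)
    (hr : ∀ x, e (u x) = u x) (x : E) : ∃ z, e x = u z := by
  have hfin := he.adj.range_fin
  have hle : LinearMap.range (u : E →ₗ[ℝ] E) ≤ LinearMap.range (e : E →ₗ[ℝ] E) := by
    rintro _ ⟨y, rfl⟩
    exact ⟨u y, hr y⟩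
  have heq := Submodule.eq_of_le_of_finrank_le hle (he.min u hu hu0)
  have : e x ∈ LinearMap.range (u : E →ₗ[ℝ] E) := by
    rw [heq]
    exact ⟨x, rfl⟩
  obtain ⟨z, hz⟩ := this
  exact ⟨z, hz.symm⟩

lemma scalar {u : E →L[ℝ] E} (he : Mp e) (hu : Adj u u) (h1 : e * u = u) (h2 : u * e = u) :
    ∃ c : ℝ, u = c • e := by
  rcases eq_or_ne u 0 with rfl | hu0
  · exact ⟨0, by simp⟩
  have hr : ∀ x, e (u x) = u x := fun x => by
    have := congrArg (fun w : E →L[ℝ] E => w x) h1
    simpa using this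
  have hfin := he.adj.range_fin
  have hrk : rk u ≤ rk e := by
    refine Submodule.finrank_mono ?_
    rintro _ ⟨y, rfl⟩
    exact ⟨u y, hr y⟩
  obtain ⟨c, hc, hcc⟩ := min_sq hu hu0 fun k hk hk0 => hrk.trans (he.min k hk hk0)
  refine ⟨c, ?_⟩
  ext x
  obtain ⟨z, hz⟩ := he.range_eq hu hu0 hr x
  have e1 : u (e x) = u x := by
    have := congrArg (fun w : E →L[ℝ] E => w x) h2
    simpa using this
  have e2 : u (u z) = c • u z := by
    have := congrArg (fun w : E →L[ℝ] E => w z) hcc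
    simpa using this
  show u x = c • e x
  rw [← e1, hz, e2]

/-- `e a' a e = c e` with `c ≥ 0` -/
lemma sq {a a' : E →L[ℝ] E} (he : Mp e) (h : Adj a a') :
    ∃ c : ℝ, 0 ≤ c ∧ (e * a') * (a * e) = c • e ∧ (c = 0 → a * e = 0) := by
  have h1 : Adj (a * e) (e * a') := h.mul he.adj
  have h2 : Adj ((e * a') * (a * e)) ((e * a') * (a * e)) := h1.symm.mul h1
  obtain ⟨c, hc⟩ := he.scalar h2 (by rw [← mul_assoc e (e * a'), ← mul_assoc e e, he.idem])
    (by rw [mul_assoc (e * a'), mul_assoc a, he.idem])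
  refine ⟨c, ?_, hc, fun h0 => h1.eq_zero (by rw [hc, h0, zero_smul])⟩
  obtain ⟨x, hx, hex⟩ := he.exists_vec
  obtain ⟨V, B, hV, hf, hB, k2, k3, k4⟩ := h1.exists_V (Submodule.span ℝ {x})
  have hxV : x ∈ V := hV (Submodule.mem_span_singleton_self x)
  have h3 := hB.nonneg (k2 x)
  rw [k4 x hxV _ (k2 x)] at h3
  have h4 : (e * a') ((a * e) x) = c • x := by
    have := congrArg (fun w : E →L[ℝ] E => w x) hc
    simp only [smul_apply, hex] at this
    exact this
  rw [h4, hB.smul_right c hxV hxV] at h3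
  have h5 := hB.pos x hxV hx
  by_contra hneg
  push Not at hneg
  nlinarith

lemma eq_of (he : Mp e) (hf : Mp f) (h : e * f * e = e) : e = f := by
  -- `d = e - f e` vanishes
  have hd : Adj (e - f * e) (e - e * f) := he.adj.sub (hf.adj.mul he.adj)
  have h1 : e - f * e = 0 := by
    refine hd.eq_zero ?_
    have : (e - e * f) * (e - f * e) = e * e - e * f * e - e * f * e + e * (f * f) * e := by
      noncomm_ring
    rw [this, he.idem, hf.idem, h]
    simp
  have h2 : e - e * f = 0 := by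
    rw [h1] at hd
    exact hd.symm.eq_zero' rfl
  -- the ranges agree
  have hr : ∀ x, f (e x) = e x := fun x => by
    have := congrArg (fun w : E →L[ℝ] E => w x) (sub_eq_zero.1 h1)
    simpa using this.symm
  ext x
  obtain ⟨z, hz⟩ := hf.range_eq he.adj he.ne hr x
  have e1 : e (f x) = e x := by
    have := congrArg (fun w : E →L[ℝ] E => w x) (sub_eq_zero.1 h2)
    simpa using this.symm
  rw [← e1, hz, he.app]

lemma uniq (he : Mp e) (hf : Mp f) {x : E} (hx : x ≠ 0) (h1 : e x = x) (h2 : f x = x) : e = f := by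
  apply he.eq_of hf
  have hadj : Adj (e * f * e) (e * f * e) := by
    have := (he.adj.mul hf.adj).mul he.adj
    rwa [← mul_assoc] at this
  obtain ⟨c, hc⟩ := he.scalar hadj (by rw [← mul_assoc, ← mul_assoc, he.idem])
    (by rw [mul_assoc, he.idem])
  have h3 : x = c • x := by
    have := congrArg (fun w : E →L[ℝ] E => w x) hc
    simpa [h1, h2] using this
  have h4 : c = 1 := by
    have : (c - 1) • x = 0 := by rw [sub_smul, one_smul, ← h3, sub_self]
    rcases smul_eq_zero.1 this with h | h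
    · linarith
    · exact absurd h hx
  rw [hc, h4, one_smul]

lemma block (H : ∀ z : E, z ≠ 0 → ∃ f : E →L[ℝ] E, Mp f ∧ f z = z) {e₁ e₂ : E →L[ℝ] E}
    (h₁ : Mp e₁) (h₂ : Mp e₂) : ∃ a a' : E →L[ℝ] E, Adj a a' ∧ e₁ * a * e₂ ≠ 0 := by
  by_contra hcon
  push Not at hcon
  have h12 : e₁ * e₂ = 0 := by
    have := hcon e₁ e₁ h₁.adj
    rwa [h₁.idem] at this
  have h21 : e₂ * e₁ = 0 := by
    have := h₁.adj.mul h₂.adj
    rw [h12] at this
    exact this.symm.eq_zero' rfl
  obtain ⟨x₁, hx₁, ex₁⟩ := h₁.exists_vec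
  obtain ⟨x₂, hx₂, ex₂⟩ := h₂.exists_vec
  have a12 : e₁ x₂ = 0 := by
    have := congrArg (fun w : E →L[ℝ] E => w x₂) h12
    simpa [ex₂] using this
  have a21 : e₂ x₁ = 0 := by
    have := congrArg (fun w : E →L[ℝ] E => w x₁) h21
    simpa [ex₁] using this
  have hz : x₁ + x₂ ≠ 0 := by
    intro h0
    have := congrArg e₁ h0
    rw [map_add, ex₁, a12, add_zero, map_zero] at this
    exact hx₁ this
  obtain ⟨f, hf, hfz⟩ := H _ hz
  have c1 := hcon f f hf.adj
  have c2 : e₂ * f * e₁ = 0 := by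
    have := (h₁.adj.mul hf.adj).mul h₂.adj
    rw [c1, ← mul_assoc] at this
    exact this.symm.eq_zero' rfl
  have b1 : e₁ (f x₂) = 0 := by
    have := congrArg (fun w : E →L[ℝ] E => w x₂) c1
    simpa [ex₂] using this
  have b2 : e₂ (f x₁) = 0 := by
    have := congrArg (fun w : E →L[ℝ] E => w x₁) c2
    simpa [ex₁] using this
  have d1 : e₁ (f x₁) = x₁ := by
    have := congrArg e₁ hfz
    rw [map_add, map_add, b1, add_zero, map_add, ex₁, a12, add_zero] at this
    exact this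
  have d2 : e₂ (f x₂) = x₂ := by
    have := congrArg e₂ hfz
    rw [map_add, map_add, b2, zero_add, map_add, ex₂, a21, zero_add] at this
    exact this
  have key : ∀ {g : E →L[ℝ] E} {x : E}, Mp g → x ≠ 0 → g x = x → g (f x) = x → g = f := by
    intro g x hg hx hgx hgf
    apply hg.eq_of hf
    have hadj : Adj (g * f * g) (g * f * g) := by
      have := (hg.adj.mul hf.adj).mul hg.adj
      rwa [← mul_assoc] at this
    obtain ⟨c, hc⟩ := hg.scalar hadj (by rw [← mul_assoc, ← mul_assoc, hg.idem])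
      (by rw [mul_assoc, hg.idem])
    have h3 : x = c • x := by
      have := congrArg (fun w : E →L[ℝ] E => w x) hc
      simpa [hgx, hgf] using this
    have h4 : c = 1 := by
      have : (c - 1) • x = 0 := by rw [sub_smul, one_smul, ← h3, sub_self]
      rcases smul_eq_zero.1 this with h | h
      · linarith
      · exact absurd h hx
    rw [hc, h4, one_smul]
  have k1 := key h₁ hx₁ ex₁ d1
  have k2 := key h₂ hx₂ ex₂ d2
  rw [k1, k2, hf.idem] at h12
  exact hf.ne h12

/-- every vector is `v w` with `w` in the range of `e` -/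
lemma rep (H : ∀ z : E, z ≠ 0 → ∃ f : E →L[ℝ] E, Mp f ∧ f z = z) (he : Mp e) (x : E) :
    ∃ (v v' : E →L[ℝ] E) (w : E), Adj v v' ∧ e w = w ∧ v w = x ∧ v * e = v := by
  rcases eq_or_ne x 0 with rfl | hx
  · exact ⟨e, e, 0, he.adj, by simp, by simp, he.idem⟩
  obtain ⟨f, hf, hfx⟩ := H x hx
  obtain ⟨a, a', ha, hne⟩ := block H hf he
  have hv : Adj (f * a * e) (e * (a' * f)) := (hf.adj.mul ha).mul he.adj
  have hb : Adj (e * a') (a * e) := he.adj.mul ha.symm
  obtain ⟨c, hc0, hc, hcz⟩ := hf.sq hb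
  have hcne : c ≠ 0 := by
    intro h0
    have h1 := hcz h0
    have h2 : e * (a' * f) = 0 := by rw [← mul_assoc]; exact h1
    exact hne (hv.eq_zero' h2)
  have hvv : (f * a * e) ((e * (a' * f)) x) = c • x := by
    have := congrArg (fun w : E →L[ℝ] E => w x) hc
    simp only [smul_apply, hfx] at this
    rw [← this]
    simp
  refine ⟨f * a * e, e * (a' * f), c⁻¹ • (e * (a' * f)) x, hv, ?_, ?_, ?_⟩
  · rw [map_smul]
    congr 1
    exact he.app _
  · rw [map_smul, hvv, smul_smul, inv_mul_cancel₀ hcne, one_smul]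
  · rw [mul_assoc, he.idem]

end Mp

end Pool.Agent.W5h45.BM
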