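import Mathlib
import Pool.Agent.W5h45.BM.Min

/-!
# A bounded form for which `Adj a a'` implies `b (a x) y = b x (a' y)`
-/

set_option autoImplicit false
set_option linter.unusedVariables false

namespace Pool.Agent.W5h45.BM

open Filter Topology

variable {E : Type*} [NormedAddCommGroup E] [NormedSpace ℝ E]

/-- finite-dimensional subspaces -/
abbrev FD (E : Type*) [NormedAddCommGroup E] [NormedSpace ℝ E] : Type _ :=
  {V : Submodule ℝ E // FiniteDimensional ℝ V}

instance : Nonempty (FD E) := ⟨⟨⊥, inferInstance⟩⟩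

instance : IsDirected (FD E) (· ≤ ·) := ⟨fun V W => by
  have := V.2
  have := W.2
  exact ⟨⟨V.1 ⊔ W.1, inferInstance⟩, le_sup_left (a := V.1), le_sup_right (a := V.1)⟩⟩

lemma ev_mem (x : E) : ∀ᶠ V : FD E in atTop, x ∈ V.1 := by
  refine (eventually_ge_atTop (⟨Submodule.span ℝ {x}, inferInstance⟩ : FD E)).mono fun V hV => ?_
  exact hV (Submodule.mem_span_singleton_self x)

/-- a chosen invariant inner product on each finite-dimensional subspace -/
noncomputable def inn (V : FD E) : E → E → ℝ :=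
  have := V.2
  (exists_isInn V.1).choose

lemma inn_spec (V : FD E) : IsInn V.1 (inn V) := by
  have := V.2
  exact (exists_isInn V.1).choose_spec

lemma ev_adj {a a' : E →L[ℝ] E} (h : Adj a a') (x y : E) :
    ∀ᶠ V : FD E in atTop, a x ∈ V.1 ∧ a' y ∈ V.1 ∧ inn V (a x) y = inn V x (a' y) := by
  obtain ⟨V₀, h1, h2, h3, h4⟩ := h
  filter_upwards [eventually_ge_atTop (⟨V₀, h1⟩ : FD E), ev_mem x, ev_mem y] with V hV hx hy
  exact ⟨hV (h2 x), hV (h3 y), h4 V.1 hV V.2 _ (inn_spec V) x hx y hy⟩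

section

variable {e : E →L[ℝ] E} (he : Mp e)
  (hrep : ∀ x, ∃ (v v' : E →L[ℝ] E) (w : E), Adj v v' ∧ e w = w ∧ v w = x ∧ v * e = v)
include he hrep

/-- the normalized inner products converge along an ultrafilter -/
theorem exists_limit : ∃ b : E → E → ℝ,
    (∀ x y z, b (x + y) z = b x z + b y z) ∧ (∀ (c : ℝ) x z, b (c • x) z = c * b x z) ∧
    (∀ x y, b x y = b y x) ∧ (∀ x, 0 ≤ b x x) ∧
    (∀ a a' : E →L[ℝ] E, Adj a a' → ∀ x y, b (a x) y = b x (a' y)) ∧ ∃ x, b x x ≠ 0 := by
  have hfin := he.adj.range_fin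
  set W := LinearMap.range (e : E →ₗ[ℝ] E) with hW
  have hWe : ∀ {w : E}, w ∈ W → e w = w := by
    rintro w ⟨z, rfl⟩
    exact he.app z
  -- a basis of the range of `e`
  set n := Module.finrank ℝ W
  let bs := Module.finBasis ℝ W
  -- the normalization
  let N : FD E → ℝ := fun V => ∑ i, inn V (bs i : E) (bs i : E)
  have hWV : ∀ᶠ V : FD E in atTop, W ≤ V.1 := eventually_ge_atTop (⟨W, hfin⟩ : FD E)
  have hn : 0 < n := by
    obtain ⟨x, hx, hex⟩ := he.exists_vec
    have : Nontrivial W := ⟨⟨⟨x, ⟨x, hex⟩⟩, 0, fun h0 => hx (congrArg Subtype.val h0)⟩⟩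
    exact Module.finrank_pos
  have hNpos : ∀ᶠ V : FD E in atTop, 0 < N V := by
    filter_upwards [hWV] with V hV
    have : Nonempty (Fin n) := ⟨⟨0, hn⟩⟩
    refine Finset.sum_pos (fun i _ => (inn_spec V).pos _ (hV (bs i).2) ?_) Finset.univ_nonempty
    intro h0
    exact bs.ne_zero i (Subtype.ext h0)
  -- vectors with bounded normalized length
  let D : Submodule ℝ E :=
    { carrier := {x | ∃ C : ℝ, ∀ᶠ V : FD E in atTop, inn V x x ≤ C * N V}
      add_mem' := by
        rintro x y ⟨C, hC⟩ ⟨C', hC'⟩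
        refine ⟨2 * C + 2 * C', ?_⟩
        filter_upwards [hC, hC', ev_mem x, ev_mem y] with V h1 h2 hx hy
        have hB := inn_spec V
        have h3 := hB.nonneg (V.1.sub_mem hx hy)
        rw [hB.sub_left hx hy (V.1.sub_mem hx hy), hB.sub_right hx hx hy,
          hB.sub_right hy hx hy] at h3
        rw [hB.add x hx y hy _ (V.1.add_mem hx hy), hB.add_right hx hx hy, hB.add_right hy hx hy]
        nlinarith
      zero_mem' := ⟨0, by
        filter_upwards with V
        rw [(inn_spec V).zero_left V.1.zero_mem, zero_mul]⟩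
      smul_mem' := by
        rintro c x ⟨C, hC⟩
        refine ⟨c ^ 2 * C, ?_⟩
        filter_upwards [hC, ev_mem x] with V h1 hx
        have hB := inn_spec V
        rw [hB.smul c x hx _ (V.1.smul_mem c hx), hB.smul_right c hx hx]
        nlinarith [sq_nonneg c, mul_le_mul_of_nonneg_left h1 (sq_nonneg c)] }
  have hDbs : ∀ i, (bs i : E) ∈ D := fun i => by
    refine ⟨1, ?_⟩
    filter_upwards [hWV] with V hV
    rw [one_mul]
    exact Finset.single_le_sum (f := fun i => inn V (bs i : E) (bs i : E))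
      (fun j _ => (inn_spec V).nonneg (hV (bs j).2)) (Finset.mem_univ i)
  have hDW : ∀ w ∈ W, w ∈ D := fun w hw => by
    have h1 := bs.sum_repr ⟨w, hw⟩
    have h2 : w = ∑ i, bs.repr ⟨w, hw⟩ i • (bs i : E) := by
      have h3 : ((∑ i, bs.repr ⟨w, hw⟩ i • bs i : W) : E) = w := congrArg Subtype.val h1
      rw [Submodule.coe_sum] at h3
      exact h3.symm
    rw [h2]
    exact D.sum_mem fun i _ => D.smul_mem _ (hDbs i)
  have hD : ∀ x, x ∈ D := fun x => by
    obtain ⟨v, v', w, hv, hw, hvw, hve⟩ := hrep x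
    obtain ⟨C, hC⟩ := hDW w ⟨w, hw⟩
    obtain ⟨c, hc0, hc, -⟩ := he.sq hv
    refine ⟨c * C, ?_⟩
    have hv' : Adj (v * e) (e * v') := hv.mul he.adj
    have h1 : (e * v') (v w) = c • w := by
      have := congrArg (fun u : E →L[ℝ] E => u w) hc
      simp only [smul_apply, hw] at this
      rw [← this, hve]
      rfl
    filter_upwards [hC, ev_adj hv' w (v w), ev_mem w, ev_mem (v w)] with V h2 h3 h4 h5
    rw [hve] at h3
    rw [← hvw, h3.2.2, h1, (inn_spec V).smul_right c h4 h4]
    nlinarith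
  -- the limit
  let U : Ultrafilter (FD E) := Ultrafilter.of atTop
  have hU : (U : Filter (FD E)) ≤ atTop := Ultrafilter.of_le atTop
  have hlim : ∀ x y : E, ∃ l : ℝ, Tendsto (fun V : FD E => inn V x y / N V) U (𝓝 l) := by
    intro x y
    obtain ⟨C, hC⟩ := hD x
    obtain ⟨C', hC'⟩ := hD y
    have hb : ∀ᶠ V : FD E in U, inn V x y / N V ∈ Set.Icc (-(C + C')) (C + C') := by
      refine hU ?_
      filter_upwards [hC, hC', ev_mem x, ev_mem y, hNpos] with V h1 h2 hx hy hN
      have hB := inn_spec V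
      have h3 := hB.nonneg (V.1.sub_mem hx hy)
      have h4 := hB.nonneg (V.1.add_mem hx hy)
      rw [hB.sub_left hx hy (V.1.sub_mem hx hy), hB.sub_right hx hx hy, hB.sub_right hy hx hy,
        hB.symm y hy x hx] at h3
      rw [hB.add x hx y hy _ (V.1.add_mem hx hy), hB.add_right hx hx hy, hB.add_right hy hx hy,
        hB.symm y hy x hx] at h4
      have h5 := hB.nonneg hx
      have h6 := hB.nonneg hy
      constructor
      · rw [le_div_iff₀ hN]
        nlinarith
      · rw [div_le_iff₀ hN]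
        nlinarith
    have := (isCompact_Icc (a := -(C + C')) (b := C + C')).ultrafilter_le_nhds
      (U.map fun V : FD E => inn V x y / N V) (by
        rw [Ultrafilter.coe_map, le_principal_iff]
        exact hb)
    obtain ⟨l, -, hl⟩ := this
    exact ⟨l, hl⟩
  choose b hb using hlim
  have huniq : ∀ {x y : E} {l : ℝ}, Tendsto (fun V : FD E => inn V x y / N V) U (𝓝 l) →
      b x y = l := fun h => tendsto_nhds_unique (hb _ _) h
  refine ⟨b, ?_, ?_, ?_, ?_, ?_, ?_⟩
  · intro x y z
    refine huniq (((hb x z).add (hb y z)).congr' (hU ?_))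
    filter_upwards [ev_mem x, ev_mem y, ev_mem z] with V hx hy hz
    rw [(inn_spec V).add x hx y hy z hz, add_div]
  · intro c x z
    refine huniq (((hb x z).const_mul c).congr' (hU ?_))
    filter_upwards [ev_mem x, ev_mem z] with V hx hz
    rw [(inn_spec V).smul c x hx z hz, mul_div_assoc]
  · intro x y
    refine huniq ((hb y x).congr' (hU ?_))
    filter_upwards [ev_mem x, ev_mem y] with V hx hy
    rw [(inn_spec V).symm x hx y hy]
  · intro x
    refine ge_of_tendsto (hb x x) (hU ?_)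
    filter_upwards [ev_mem x, hNpos] with V hx hN
    exact div_nonneg ((inn_spec V).nonneg hx) hN.le
  · intro a a' h x y
    refine huniq ((hb x (a' y)).congr' (hU ?_))
    filter_upwards [ev_adj h x y] with V hV
    rw [hV.2.2]
  · by_contra hcon
    push Not at hcon
    have h1 : Tendsto (fun V : FD E => ∑ i, inn V (bs i : E) (bs i : E) / N V) U
        (𝓝 (∑ i, b (bs i : E) (bs i : E))) := tendsto_finsetSum _ fun i _ => hb _ _
    have h2 : Tendsto (fun V : FD E => ∑ i, inn V (bs i : E) (bs i : E) / N V) U (𝓝 1) := by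
      refine tendsto_const_nhds.congr' (hU ?_)
      filter_upwards [hNpos] with V hN
      rw [← Finset.sum_div]
      exact (div_self hN.ne').symm
    have h3 := tendsto_nhds_unique h1 h2
    rw [Finset.sum_eq_zero fun i _ => hcon _] at h3
    exact zero_ne_one h3

/-- the bounded form -/
theorem exists_form [CompleteSpace E] : ∃ b : E →L[ℝ] E →L[ℝ] ℝ,
    (∀ a a' : E →L[ℝ] E, Adj a a' → ∀ x y, b (a x) y = b x (a' y)) ∧ ∃ x, b x x ≠ 0 := by
  obtain ⟨b, badd, bsmul, bsymm, bpos, badj, x0, hx0⟩ := exists_limit he hrep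
  have hfin := he.adj.range_fin
  set W := LinearMap.range (e : E →ₗ[ℝ] E) with hW
  have baddr : ∀ x y z, b x (y + z) = b x y + b x z := fun x y z => by
    rw [bsymm, badd, bsymm y, bsymm z]
  have bsmulr : ∀ (c : ℝ) x y, b x (c • y) = c * b x y := fun c x y => by
    rw [bsymm, bsmul, bsymm y]
  -- partial continuity
  have hcont : ∀ x, ∃ φ : E →L[ℝ] ℝ, ∀ y, φ y = b x y := by
    intro x
    obtain ⟨v, v', w, hv, hw, hvw, hve⟩ := hrep x
    let ℓ : W →ₗ[ℝ] ℝ :=
      { toFun := fun u => b w u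
        map_add' := fun u u' => baddr _ _ _
        map_smul' := fun c u => bsmulr _ _ _ }
    let ψ : E →L[ℝ] W := (e * v').codRestrict W fun y => ⟨v' y, rfl⟩
    refine ⟨(LinearMap.toContinuousLinearMap ℓ).comp ψ, fun y => ?_⟩
    show b w (e (v' y)) = b x y
    rw [← badj e e he.adj, hw, ← badj v v' hv, hvw]
  choose φ hφ using hcont
  let Φ : E →ₗ[ℝ] (E →L[ℝ] ℝ) :=
    { toFun := φ
      map_add' := fun x y => by
        ext z
        show φ (x + y) z = φ x z + φ y z
        rw [hφ, hφ, hφ, badd]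
      map_smul' := fun c x => by
        ext z
        show φ (c • x) z = c * φ x z
        rw [hφ, hφ, bsmul] }
  have hgraph : ∀ (u : ℕ → E) (x : E) (y : E →L[ℝ] ℝ), Tendsto u atTop (𝓝 x) →
      Tendsto (Φ ∘ u) atTop (𝓝 y) → y = Φ x := by
    intro u x y hu hy
    ext z
    have h1 : Tendsto (fun n => (Φ ∘ u) n z) atTop (𝓝 (y z)) :=
      ((ContinuousLinearMap.apply ℝ ℝ z).continuous.tendsto y).comp hy
    have h2 : Tendsto (fun n => φ z (u n)) atTop (𝓝 (φ z x)) := ((φ z).continuous.tendsto x).comp hu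
    have h3 : (fun n => (Φ ∘ u) n z) = fun n => φ z (u n) := by
      funext n
      show φ (u n) z = φ z (u n)
      rw [hφ, hφ, bsymm]
    rw [h3] at h1
    have h4 := tendsto_nhds_unique h1 h2
    rw [h4]
    show φ z x = φ x z
    rw [hφ, hφ, bsymm]
  let b' : E →L[ℝ] E →L[ℝ] ℝ := ContinuousLinearMap.ofSeqClosedGraph hgraph
  have hb' : ∀ x y, b' x y = b x y := fun x y => hφ x y
  exact ⟨b', fun a a' h x y => by rw [hb', hb', badj a a' h], x0, by rw [hb']; exact hx0⟩

end

end Pool.Agent.W5h45.BM
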