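import Mathlib
import Pool.Agent.W5h45.BM.Form
import Pool.Agent.TH596.RO.Forms

/-!
# Transitive norms: one finite rank operator with an adjoint is enough
-/

set_option autoImplicit false
set_option linter.unusedVariables false

namespace Pool.Agent.W5h45.BM

variable {E : Type*} [NormedAddCommGroup E] [NormedSpace ℝ E]

lemma cj_mul (T : E ≃ₗᵢ[ℝ] E) (a c : E →L[ℝ] E) : cj T a * cj T c = cj T (a * c) := by
  ext x
  show T (a (T.symm (T (c (T.symm x))))) = T (a (c (T.symm x)))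
  rw [T.symm_apply_apply]

lemma Mp.conj {e : E →L[ℝ] E} (he : Mp e) (T : E ≃ₗᵢ[ℝ] E) : Mp (cj T e) := by
  refine ⟨he.adj.conj T, by rw [cj_mul, he.idem], fun h0 => ?_, fun k hk hk0 => ?_⟩
  · obtain ⟨x, hx, hex⟩ := he.exists_vec
    have h1 : cj T e (T x) = 0 := by rw [h0]; rfl
    rw [cj_apply, T.symm_apply_apply, hex] at h1
    exact hx (by simpa using h1)
  · have hfin := he.adj.range_fin
    refine le_trans ?_ (he.min k hk hk0)
    have hsub : LinearMap.range ((cj T e : E →L[ℝ] E) : E →ₗ[ℝ] E) ≤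
        (LinearMap.range (e : E →ₗ[ℝ] E)).map (T.toLinearEquiv : E →ₗ[ℝ] E) := by
      rintro _ ⟨y, rfl⟩
      exact ⟨e (T.symm y), ⟨_, rfl⟩, rfl⟩
    exact (Submodule.finrank_mono hsub).trans (Submodule.finrank_map_le _ _)

/-- finite-dimensional spaces -/
lemma par_fd [FiniteDimensional ℝ E]
    (htr : ∀ x y : E, ‖x‖ = 1 → ‖y‖ = 1 → ∃ T : E ≃ₗᵢ[ℝ] E, T x = y) (x y : E) :
    ‖x + y‖ ^ 2 + ‖x - y‖ ^ 2 = 2 * ‖x‖ ^ 2 + 2 * ‖y‖ ^ 2 := by
  obtain ⟨B, h1, h2, h3, h4, h5⟩ := exists_inner (V := E)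
  rcases subsingleton_or_nontrivial E with hs | hn
  · rw [Subsingleton.elim x 0, Subsingleton.elim y 0]
    simp
  obtain ⟨u, hu⟩ := exists_ne (0 : E)
  set u₁ := (‖u‖⁻¹ : ℝ) • u with hu₁
  have hu₁n : ‖u₁‖ = 1 := norm_smul_inv_norm (𝕜 := ℝ) hu
  have hu₁0 : u₁ ≠ 0 := fun h => by rw [h, norm_zero] at hu₁n; exact zero_ne_one hu₁n
  have key : ∀ z : E, B z z = B u₁ u₁ * ‖z‖ ^ 2 := by
    intro z
    rcases eq_or_ne z 0 with rfl | hz
    · have := h2 0 0 0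
      simp only [zero_smul, zero_mul] at this
      simp [this]
    obtain ⟨T, hT⟩ := htr u₁ ((‖z‖⁻¹ : ℝ) • z) hu₁n (norm_smul_inv_norm (𝕜 := ℝ) hz)
    have hz' : z = ‖z‖ • T u₁ := by
      rw [hT, smul_smul, mul_inv_cancel₀ (norm_ne_zero_iff.2 hz), one_smul]
    conv_lhs => rw [hz']
    rw [h2, h3, h2, h5]
    ring
  have hc : 0 < B u₁ u₁ := h4 u₁ hu₁0
  have hadd : ∀ x y z, B x (y + z) = B x y + B x z := fun x y z => by rw [h3, h1, h3 y, h3 z]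
  have hneg : ∀ x z, B (-x) z = - B x z := fun x z => by
    have := h2 (-1) x z
    rw [neg_one_smul] at this
    linarith
  have hnegr : ∀ x z, B x (-z) = - B x z := fun x z => by rw [h3, hneg, h3]
  have e1 : B (x + y) (x + y) + B (x - y) (x - y) = 2 * B x x + 2 * B y y := by
    rw [sub_eq_add_neg]
    simp only [h1, hadd, hneg, hnegr]
    ring
  rw [key (x + y), key (x - y), key x, key y] at e1
  have : B u₁ u₁ * (‖x + y‖ ^ 2 + ‖x - y‖ ^ 2) = B u₁ u₁ * (2 * ‖x‖ ^ 2 + 2 * ‖y‖ ^ 2) := by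
    linarith
  exact mul_left_cancel₀ hc.ne' this

/-- **Exact transitivity.** -/
theorem par_exact [CompleteSpace E]
    (htr : ∀ x y : E, ‖x‖ = 1 → ‖y‖ = 1 → ∃ T : E ≃ₗᵢ[ℝ] E, T x = y)
    {a a' : E →L[ℝ] E} (ha : Adj a a') (ha0 : a ≠ 0) (x y : E) :
    ‖x + y‖ ^ 2 + ‖x - y‖ ^ 2 = 2 * ‖x‖ ^ 2 + 2 * ‖y‖ ^ 2 := by
  by_cases hE : FiniteDimensional ℝ E
  · exact par_fd htr x y
  obtain ⟨e, he⟩ := exists_Mp ha ha0
  obtain ⟨x1, hx1, hex1⟩ := he.exists_vec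
  have H : ∀ z : E, z ≠ 0 → ∃ f : E →L[ℝ] E, Mp f ∧ f z = z := by
    intro z hz
    obtain ⟨T, hT⟩ := htr ((‖x1‖⁻¹ : ℝ) • x1) ((‖z‖⁻¹ : ℝ) • z) (norm_smul_inv_norm (𝕜 := ℝ) hx1)
      (norm_smul_inv_norm (𝕜 := ℝ) hz)
    refine ⟨cj T e, he.conj T, ?_⟩
    have h1 : T.symm ((‖z‖⁻¹ : ℝ) • z) = (‖x1‖⁻¹ : ℝ) • x1 := by
      rw [← hT, T.symm_apply_apply]
    have h2 : cj T e ((‖z‖⁻¹ : ℝ) • z) = (‖z‖⁻¹ : ℝ) • z := by
      rw [cj_apply, h1, map_smul, hex1, hT]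
    have h3 : z = ‖z‖ • ((‖z‖⁻¹ : ℝ) • z) := by
      rw [smul_smul, mul_inv_cancel₀ (norm_ne_zero_iff.2 hz), one_smul]
    rw [h3, map_smul, h2]
  obtain ⟨b, hb, x0, hx0⟩ := exists_form he (he.rep H)
  let N : Submodule ℝ (E →L[ℝ] E →L[ℝ] ℝ) :=
    { carrier := {b | ∀ a a' : E →L[ℝ] E, Adj a a' → ∀ x y, b (a x) y = b x (a' y)}
      add_mem' := by
        intro b c hb hc a a' h x y
        show b (a x) y + c (a x) y = b x (a' y) + c x (a' y)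
        rw [hb a a' h, hc a a' h]
      zero_mem' := fun a a' h x y => rfl
      smul_mem' := by
        intro r b hb a a' h x y
        show r * b (a x) y = r * b x (a' y)
        rw [hb a a' h] }
  have hN : ∀ T ∈ (⊤ : Subgroup (E ≃ₗᵢ[ℝ] E)), ∀ b ∈ N, Pool.Agent.TH596.RO.bl T b ∈ N := by
    intro T _ b hb a a' h x y
    rw [Pool.Agent.TH596.RO.bl_apply, Pool.Agent.TH596.RO.bl_apply]
    have h1 := hb _ _ (h.conj T.symm) (T.symm x) (T.symm y)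
    simpa [cj_apply] using h1
  let P : (E →L[ℝ] ℝ) →ₗ[ℝ] (E →L[ℝ] ℝ) :=
    { toFun := fun φ => φ.comp e
      map_add' := fun φ ψ => by ext; simp
      map_smul' := fun c φ => by ext; simp }
  have hW : FiniteDimensional ℝ (LinearMap.range P) := by
    have hfin := he.adj.range_fin
    let Q : LinearMap.range P →ₗ[ℝ] (LinearMap.range (e : E →ₗ[ℝ] E) →ₗ[ℝ] ℝ) :=
      { toFun := fun φ => (φ : E →L[ℝ] ℝ).toLinearMap.domRestrict _
        map_add' := fun φ ψ => by ext; simp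
        map_smul' := fun c φ => by ext; simp }
    refine FiniteDimensional.of_injective Q ?_
    rintro ⟨_, φ, rfl⟩ ⟨_, ψ, rfl⟩ h
    apply Subtype.ext
    ext z
    have h1 := congrArg (fun f : LinearMap.range (e : E →ₗ[ℝ] E) →ₗ[ℝ] ℝ => f ⟨e z, ⟨z, rfl⟩⟩) h
    have h2 : φ (e (e z)) = ψ (e (e z)) := h1
    rw [he.app] at h2
    exact h2
  have hNW : ∀ c ∈ N, c x1 ∈ LinearMap.range P := by
    intro c hc
    refine ⟨c x1, ?_⟩
    ext z
    show c x1 (e z) = c x1 z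
    rw [← hc e e he.adj, hex1]
  exact Pool.Agent.TH596.RO.forms_par_pt hE (H := ⊤)
    (fun x y hx hy ε hε => by
      obtain ⟨T, hT⟩ := htr x y hx hy
      exact ⟨T, Subgroup.mem_top T, by rw [hT, sub_self, norm_zero]; exact hε⟩)
    hN hx1 hW hNW hb hx0 x y

end Pool.Agent.W5h45.BM
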