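import Mathlib
import Pool.Agent.W5h45.BM.Exact

/-!
# The ultrapower of a Banach space with an almost transitive norm
-/

set_option autoImplicit false
set_option linter.unusedVariables false

namespace Pool.Agent.W5h45.BM

open Filter Topology ENNReal

variable {E : Type*} [NormedAddCommGroup E] [NormedSpace ℝ E]

/-- the ultrafilter -/
noncomputable abbrev UF : Ultrafilter ℕ := hyperfilter ℕ

lemma exists_ulim {f : ℕ → ℝ} {C : ℝ} (hf : ∀ n, |f n| ≤ C) :
    ∃ l, Tendsto f (UF : Filter ℕ) (𝓝 l) := by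
  obtain ⟨l, -, hl⟩ := (isCompact_Icc (a := -C) (b := C)).ultrafilter_le_nhds (UF.map f) (by
    rw [Ultrafilter.coe_map, le_principal_iff]
    exact Filter.mem_map.2 (Filter.univ_mem' fun n => abs_le.1 (hf n)))
  exact ⟨l, hl⟩

/-- bounded sequences -/
abbrev Xs (E : Type*) [NormedAddCommGroup E] [NormedSpace ℝ E] : Type _ := lp (fun _ : ℕ => E) ∞

lemma Xs.exists_lim (x : Xs E) : ∃ l, Tendsto (fun n => ‖x n‖) (UF : Filter ℕ) (𝓝 l) :=
  exists_ulim (C := ‖x‖) fun n => by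
    rw [abs_of_nonneg (norm_nonneg _)]
    exact lp.norm_apply_le_norm (by simp) x n

/-- sequences which tend to zero along the ultrafilter -/
def Nl (E : Type*) [NormedAddCommGroup E] [NormedSpace ℝ E] : Submodule ℝ (Xs E) where
  carrier := {x | Tendsto (fun n => ‖x n‖) (UF : Filter ℕ) (𝓝 0)}
  add_mem' := by
    intro x y hx hy
    refine squeeze_zero (fun n => norm_nonneg _) (fun n => norm_add_le (x n) (y n)) ?_
    simpa using hx.add hy
  zero_mem' := by
    show Tendsto (fun n => ‖(0 : Xs E) n‖) (UF : Filter ℕ) (𝓝 0)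
    simp
  smul_mem' := by
    intro c x hx
    show Tendsto (fun n => ‖(c • x : Xs E) n‖) (UF : Filter ℕ) (𝓝 0)
    have : (fun n => ‖(c • x : Xs E) n‖) = fun n => ‖c‖ * ‖x n‖ := by
      funext n
      rw [lp.coeFn_smul, Pi.smul_apply, norm_smul]
    rw [this]
    simpa using hx.const_mul ‖c‖

lemma mem_Nl {x : Xs E} : x ∈ Nl E ↔ Tendsto (fun n => ‖x n‖) (UF : Filter ℕ) (𝓝 0) := Iff.rfl

instance isClosed_Nl : IsClosed (Nl E : Set (Xs E)) := by
  refine isClosed_of_closure_subset fun x hx => ?_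
  show Tendsto (fun n => ‖x n‖) (UF : Filter ℕ) (𝓝 0)
  rw [Metric.tendsto_nhds]
  intro ε hε
  obtain ⟨y, hy, hxy⟩ := Metric.mem_closure_iff.1 hx (ε / 2) (half_pos hε)
  have h1 := (Metric.tendsto_nhds.1 (mem_Nl.1 hy)) (ε / 2) (half_pos hε)
  filter_upwards [h1] with n hn
  rw [Real.dist_eq, sub_zero, abs_of_nonneg (norm_nonneg _)] at hn ⊢
  have h2 : ‖x n - y n‖ ≤ ‖x - y‖ := lp.norm_apply_le_norm (by simp) (x - y) n
  rw [dist_eq_norm] at hxy
  calc ‖x n‖ = ‖(x n - y n) + y n‖ := by rw [sub_add_cancel]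
    _ ≤ ‖x n - y n‖ + ‖y n‖ := norm_add_le _ _
    _ < ε := by linarith

/-- the ultrapower -/
abbrev Up (E : Type*) [NormedAddCommGroup E] [NormedSpace ℝ E] : Type _ := Xs E ⧸ Nl E

lemma norm_mk {x : Xs E} {l : ℝ} (h : Tendsto (fun n => ‖x n‖) (UF : Filter ℕ) (𝓝 l)) :
    ‖(Submodule.Quotient.mk x : Up E)‖ = l := by
  classical
  refine le_antisymm ?_ ?_
  · refine le_of_forall_pos_le_add fun ε hε => ?_
    have hA : ∀ᶠ n in (UF : Filter ℕ), ‖x n‖ ≤ l + ε :=
      (h.eventually (gt_mem_nhds (show l < l + ε by linarith))).mono fun n hn => hn.le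
    have hl : 0 ≤ l := ge_of_tendsto h (Filter.Eventually.of_forall fun n => norm_nonneg _)
    have hmem : Memℓp (fun n => if ‖x n‖ ≤ l + ε then x n else 0) ∞ := by
      refine memℓp_infty ⟨l + ε, ?_⟩
      rintro _ ⟨n, rfl⟩
      dsimp only
      split_ifs with hn
      · exact hn
      · rw [norm_zero]; linarith
    set z : Xs E := ⟨fun n => if ‖x n‖ ≤ l + ε then x n else 0, hmem⟩ with hz
    have hzn : ∀ n, z n = if ‖x n‖ ≤ l + ε then x n else 0 := fun n => rfl
    have heq : (Submodule.Quotient.mk x : Up E) = Submodule.Quotient.mk z := by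
      rw [Submodule.Quotient.eq, mem_Nl]
      refine tendsto_const_nhds.congr' ?_
      filter_upwards [hA] with n hn
      rw [lp.coeFn_sub, Pi.sub_apply, hzn, if_pos hn, sub_self, norm_zero]
    rw [heq]
    refine (Submodule.Quotient.norm_mk_le (Nl E) z).trans ?_
    refine lp.norm_le_of_forall_le (by linarith) fun n => ?_
    rw [hzn]
    split_ifs with hn
    · exact hn
    · rw [norm_zero]; linarith
  · refine le_of_forall_pos_le_add fun ε hε => ?_
    obtain ⟨m, hm, hmn⟩ := Submodule.Quotient.norm_mk_lt (S := Nl E) (Submodule.Quotient.mk x) hε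
    have h1 : Tendsto (fun n => ‖m n‖) (UF : Filter ℕ) (𝓝 l) := by
      have h2 : x - m ∈ Nl E := (Submodule.Quotient.eq (Nl E)).1 hm.symm
      have h3 : Tendsto (fun n => ‖x n‖ - ‖m n‖) (UF : Filter ℕ) (𝓝 0) := by
        refine squeeze_zero_norm (fun n => ?_) (mem_Nl.1 h2)
        rw [Real.norm_eq_abs]
        exact abs_norm_sub_norm_le _ _
      have h4 := h.sub h3
      simpa using h4
    have h5 : l ≤ ‖m‖ := le_of_tendsto h1 (Filter.Eventually.of_forall fun n =>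
      lp.norm_apply_le_norm (by simp) m n)
    linarith

/-- coordinatewise application of isometries -/
noncomputable def seqMap (T : ℕ → E ≃ₗᵢ[ℝ] E) : Xs E →ₗ[ℝ] Xs E where
  toFun x := ⟨fun n => T n (x n), by
    refine memℓp_infty ⟨‖x‖, ?_⟩
    rintro _ ⟨n, rfl⟩
    show ‖T n (x n)‖ ≤ ‖x‖
    rw [(T n).norm_map]
    exact lp.norm_apply_le_norm (by simp) x n⟩
  map_add' x y := by
    ext n
    show T n ((x + y : Xs E) n) = T n (x n) + T n (y n)
    rw [lp.coeFn_add, Pi.add_apply, map_add]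
  map_smul' c x := by
    ext n
    show T n ((c • x : Xs E) n) = c • T n (x n)
    rw [lp.coeFn_smul, Pi.smul_apply, map_smul]

lemma seqMap_apply (T : ℕ → E ≃ₗᵢ[ℝ] E) (x : Xs E) (n : ℕ) : seqMap T x n = T n (x n) := rfl

noncomputable def seqEquiv (T : ℕ → E ≃ₗᵢ[ℝ] E) : Xs E ≃ₗ[ℝ] Xs E :=
  LinearEquiv.ofLinearMap (seqMap T) (seqMap fun n => (T n).symm)
    (by
      ext x n
      show T n ((T n).symm (x n)) = x n
      simp)
    (by
      ext x n
      show (T n).symm (T n (x n)) = x n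
      simp)

lemma seqEquiv_apply (T : ℕ → E ≃ₗᵢ[ℝ] E) (x : Xs E) (n : ℕ) : seqEquiv T x n = T n (x n) := rfl

lemma seqEquiv_map (T : ℕ → E ≃ₗᵢ[ℝ] E) :
    (Nl E).map (seqEquiv T : Xs E →ₗ[ℝ] Xs E) = Nl E := by
  apply le_antisymm
  · rintro _ ⟨x, hx, rfl⟩
    show Tendsto (fun n => ‖T n (x n)‖) (UF : Filter ℕ) (𝓝 0)
    simpa using mem_Nl.1 hx
  · intro y hy
    refine ⟨(seqEquiv T).symm y, ?_, by simp⟩
    show Tendsto (fun n => ‖(T n).symm (y n)‖) (UF : Filter ℕ) (𝓝 0)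
    simpa using mem_Nl.1 hy

/-- the isometry of the ultrapower -/
noncomputable def upIso (T : ℕ → E ≃ₗᵢ[ℝ] E) : Up E ≃ₗᵢ[ℝ] Up E where
  toLinearEquiv := Submodule.Quotient.equiv (Nl E) (Nl E) (seqEquiv T) (seqEquiv_map T)
  norm_map' x := by
    obtain ⟨x, rfl⟩ := Submodule.Quotient.mk_surjective _ x
    obtain ⟨l, hl⟩ := x.exists_lim
    rw [norm_mk hl]
    refine norm_mk (x := seqEquiv T x) ?_
    simpa [seqEquiv_apply] using hl

lemma upIso_mk (T : ℕ → E ≃ₗᵢ[ℝ] E) (x : Xs E) :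
    upIso T (Submodule.Quotient.mk x) = Submodule.Quotient.mk (seqEquiv T x) := rfl

/-- constant sequences -/
noncomputable def cst : E →ₗ[ℝ] Xs E where
  toFun x := ⟨fun _ => x, memℓp_infty ⟨‖x‖, by rintro _ ⟨n, rfl⟩; exact le_rfl⟩⟩
  map_add' x y := rfl
  map_smul' c x := rfl

lemma cst_apply (x : E) (n : ℕ) : (cst x : Xs E) n = x := rfl

/-- the canonical embedding -/
noncomputable def emb : E →ₗᵢ[ℝ] Up E where
  toLinearMap := (Nl E).mkQ ∘ₗ cst
  norm_map' x := norm_mk (x := cst x) tendsto_const_nhds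

lemma emb_apply (x : E) : emb x = (Submodule.Quotient.mk (cst x) : Up E) := rfl

/-- the ultrapower of a space with an almost transitive norm has a transitive norm -/
theorem up_transitive
    (h : ∀ x y : E, ‖x‖ = 1 → ‖y‖ = 1 → ∀ ε : ℝ, 0 < ε → ∃ T : E ≃ₗᵢ[ℝ] E, ‖T x - y‖ < ε)
    (x y : Up E) (hx : ‖x‖ = 1) (hy : ‖y‖ = 1) : ∃ T : Up E ≃ₗᵢ[ℝ] Up E, T x = y := by
  obtain ⟨x, rfl⟩ := Submodule.Quotient.mk_surjective _ x
  obtain ⟨y, rfl⟩ := Submodule.Quotient.mk_surjective _ y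
  have hxl : Tendsto (fun n => ‖x n‖) (UF : Filter ℕ) (𝓝 1) := by
    obtain ⟨l, hl⟩ := x.exists_lim
    rw [norm_mk hl] at hx
    rwa [hx] at hl
  have hyl : Tendsto (fun n => ‖y n‖) (UF : Filter ℕ) (𝓝 1) := by
    obtain ⟨l, hl⟩ := y.exists_lim
    rw [norm_mk hl] at hy
    rwa [hy] at hl
  have hex : ∀ n : ℕ, ∃ T : E ≃ₗᵢ[ℝ] E, x n ≠ 0 → y n ≠ 0 →
      ‖T (x n) - y n‖ ≤ ‖x n‖ * (1 / ((n : ℝ) + 1)) + |‖x n‖ - ‖y n‖| := by
    intro n
    by_cases h0 : x n ≠ 0 ∧ y n ≠ 0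
    · obtain ⟨h1, h2⟩ := h0
      obtain ⟨T, hT⟩ := h ((‖x n‖⁻¹ : ℝ) • x n) ((‖y n‖⁻¹ : ℝ) • y n)
        (norm_smul_inv_norm (𝕜 := ℝ) h1) (norm_smul_inv_norm (𝕜 := ℝ) h2) (1 / ((n : ℝ) + 1))
        (by positivity)
      refine ⟨T, fun _ _ => ?_⟩
      have h3 : T (x n) = ‖x n‖ • T ((‖x n‖⁻¹ : ℝ) • x n) := by
        rw [map_smul, smul_smul, mul_inv_cancel₀ (norm_ne_zero_iff.2 h1), one_smul]
      have h4 : y n = ‖y n‖ • ((‖y n‖⁻¹ : ℝ) • y n) := by
        rw [smul_smul, mul_inv_cancel₀ (norm_ne_zero_iff.2 h2), one_smul]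
      set u := T ((‖x n‖⁻¹ : ℝ) • x n)
      set w := (‖y n‖⁻¹ : ℝ) • y n with hw
      have hw1 : ‖w‖ = 1 := norm_smul_inv_norm (𝕜 := ℝ) h2
      have h5 : T (x n) - y n = ‖x n‖ • (u - w) + (‖x n‖ - ‖y n‖) • w := by
        rw [h3]
        conv_lhs => rw [h4]
        rw [smul_sub, sub_smul]
        abel
      rw [h5]
      refine (norm_add_le _ _).trans ?_
      rw [norm_smul, norm_smul, hw1, mul_one, norm_norm, Real.norm_eq_abs]
      gcongr
    · exact ⟨LinearIsometryEquiv.refl ℝ E, fun h1 h2 => absurd ⟨h1, h2⟩ h0⟩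
  choose T hT using hex
  refine ⟨upIso T, ?_⟩
  rw [upIso_mk, Submodule.Quotient.eq, mem_Nl]
  have hlim : Tendsto (fun n : ℕ => ‖x n‖ * (1 / ((n : ℝ) + 1)) + |‖x n‖ - ‖y n‖|)
      (UF : Filter ℕ) (𝓝 0) := by
    have h1 : Tendsto (fun n : ℕ => 1 / ((n : ℝ) + 1)) (UF : Filter ℕ) (𝓝 0) :=
      tendsto_one_div_add_atTop_nhds_zero_nat.mono_left (Nat.hyperfilter_le_atTop)
    have h2 := (hxl.mul h1).add ((hxl.sub hyl).abs)
    simpa using h2
  refine squeeze_zero' (Filter.Eventually.of_forall fun n => norm_nonneg _) ?_ hlim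
  filter_upwards [hxl.eventually (lt_mem_nhds (show (0:ℝ) < 1 by norm_num)),
    hyl.eventually (lt_mem_nhds (show (0:ℝ) < 1 by norm_num))] with n h1 h2
  exact hT n (norm_pos_iff.1 h1) (norm_pos_iff.1 h2)

/-- vectors of the ultrapower which are represented by sequences in given subspaces of bounded
dimension -/
def upSub (V : ℕ → Submodule ℝ E) : Submodule ℝ (Up E) where
  carrier := {x | ∃ z : Xs E, (∀ n, z n ∈ V n) ∧ Submodule.Quotient.mk z = x}
  add_mem' := by
    rintro _ _ ⟨z, hz, rfl⟩ ⟨w, hw, rfl⟩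
    refine ⟨z + w, fun n => ?_, rfl⟩
    rw [lp.coeFn_add, Pi.add_apply]
    exact (V n).add_mem (hz n) (hw n)
  zero_mem' := ⟨0, fun n => by simp, rfl⟩
  smul_mem' := by
    rintro c _ ⟨z, hz, rfl⟩
    refine ⟨c • z, fun n => ?_, rfl⟩
    rw [lp.coeFn_smul, Pi.smul_apply]
    exact (V n).smul_mem c (hz n)

lemma upSub_fd {V : ℕ → Submodule ℝ E} {k : ℕ} (hV : ∀ n, FiniteDimensional ℝ (V n))
    (hk : ∀ n, Module.finrank ℝ (V n) ≤ k) : FiniteDimensional ℝ (upSub V) := by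
  have hdep : ∀ f : Fin (k + 1) → upSub V, ¬ LinearIndependent ℝ f := by
    intro f hf
    have hrep : ∀ i, ∃ z : Xs E, (∀ n, z n ∈ V n) ∧ Submodule.Quotient.mk z = (f i : Up E) :=
      fun i => (f i).2
    choose z hz hzf using hrep
    -- coefficients at each coordinate
    have hcoef : ∀ n, ∃ c : Fin (k + 1) → ℝ, ‖c‖ = 1 ∧ ∑ i, c i • z i n = 0 := by
      intro n
      have := hV n
      have hnot : ¬ LinearIndependent ℝ fun i : Fin (k + 1) => (⟨z i n, hz i n⟩ : V n) := by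
        intro hli
        have h1 := hli.fintype_card_le_finrank
        rw [Fintype.card_fin] at h1
        have := hk n
        omega
      rw [Fintype.not_linearIndependent_iff] at hnot
      obtain ⟨g, hg, i, hi⟩ := hnot
      have hg0 : g ≠ 0 := fun h0 => hi (by rw [h0]; rfl)
      refine ⟨(‖g‖⁻¹ : ℝ) • g, norm_smul_inv_norm (𝕜 := ℝ) hg0, ?_⟩
      have h2 : ∑ i, g i • z i n = 0 := by
        have := congrArg Subtype.val hg
        rw [Submodule.coe_sum] at this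
        exact this
      calc ∑ i, ((‖g‖⁻¹ : ℝ) • g) i • z i n = ∑ i, (‖g‖⁻¹ : ℝ) • (g i • z i n) := by
            refine Finset.sum_congr rfl fun i _ => ?_
            rw [Pi.smul_apply, smul_eq_mul, mul_smul]
        _ = 0 := by rw [← Finset.smul_sum, h2, smul_zero]
    choose c hc1 hc0 using hcoef
    obtain ⟨l, hl, hlim⟩ := (isCompact_sphere (0 : Fin (k + 1) → ℝ) 1).ultrafilter_le_nhds
      (UF.map c) (by
        rw [Ultrafilter.coe_map, le_principal_iff]
        exact Filter.mem_map.2 (Filter.univ_mem' fun n => by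
          show c n ∈ Metric.sphere (0 : Fin (k + 1) → ℝ) 1
          rw [mem_sphere_zero_iff_norm, hc1]))
    have hlim' : Tendsto c (UF : Filter ℕ) (𝓝 l) := hlim
    have hsum : ∑ i, l i • f i = 0 := by
      apply Subtype.ext
      rw [Submodule.coe_sum]
      have h1 : (∑ i, ((l i • f i : upSub V) : Up E)) =
          Submodule.Quotient.mk (∑ i, l i • z i) := by
        rw [← Submodule.mkQ_apply, map_sum]
        refine Finset.sum_congr rfl fun i _ => ?_
        rw [map_smul, Submodule.mkQ_apply, hzf]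
        rfl
      rw [h1]
      show (Submodule.Quotient.mk (∑ i, l i • z i) : Up E) = 0
      rw [Submodule.Quotient.mk_eq_zero, mem_Nl]
      have h2 : ∀ n, ‖(∑ i, l i • z i : Xs E) n‖ ≤ ∑ i, |l i - c n i| * ‖z i‖ := by
        intro n
        have h3 : (∑ i, l i • z i : Xs E) n = ∑ i, (l i - c n i) • z i n := by
          have h4 : (∑ i, l i • z i : Xs E) n = ∑ i, l i • z i n := by
            rw [lp.coeFn_sum, Finset.sum_apply]
            rfl
          rw [h4]
          simp only [sub_smul]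
          rw [Finset.sum_sub_distrib, hc0, sub_zero]
        rw [h3]
        refine (norm_sum_le _ _).trans (Finset.sum_le_sum fun i _ => ?_)
        rw [norm_smul, Real.norm_eq_abs]
        exact mul_le_mul_of_nonneg_left (lp.norm_apply_le_norm (by simp) (z i) n) (abs_nonneg _)
      refine squeeze_zero (fun n => norm_nonneg _) h2 ?_
      have h5 : Tendsto (fun n => ∑ i, |l i - c n i| * ‖z i‖) (UF : Filter ℕ)
          (𝓝 (∑ i, |l i - l i| * ‖z i‖)) := by
        refine tendsto_finsetSum _ fun i _ => ?_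
        exact ((tendsto_const_nhds.sub (((continuous_apply i).tendsto l).comp hlim')).abs).mul_const _
      simpa using h5
    have hl0 := Fintype.linearIndependent_iff.1 hf l hsum
    have : l = 0 := funext hl0
    rw [this] at hl
    simp at hl
  by_contra hinf
  have hrank : (k + 1 : ℕ) ≤ Module.rank ℝ (upSub V) := by
    have : Cardinal.aleph0 ≤ Module.rank ℝ (upSub V) := by
      by_contra hlt
      push Not at hlt
      exact hinf (Module.rank_lt_aleph0_iff.1 hlt)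
    exact (Cardinal.natCast_lt_aleph0.le).trans this
  obtain ⟨f, hf⟩ := le_rank_iff_exists_linearIndependent_finset.1 hrank |>.elim
    (fun s hs => by
      obtain ⟨hcard, hs⟩ := hs
      exact (⟨fun i : Fin (k + 1) => (s.equivFinOfCardEq hcard).symm i, by
        exact hs.comp _ (s.equivFinOfCardEq hcard).symm.injective⟩ :
          ∃ f : Fin (k + 1) → upSub V, LinearIndependent ℝ f))
  exact hdep f hf

/-- **Almost transitive norms.** -/
theorem par_almost [CompleteSpace E]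
    (htr : ∀ x y : E, ‖x‖ = 1 → ‖y‖ = 1 → ∀ ε : ℝ, 0 < ε → ∃ T : E ≃ₗᵢ[ℝ] E, ‖T x - y‖ < ε)
    (k : ℕ) (δ : ℝ) (hδ : 0 < δ)
    (h : ∀ ε : ℝ, 0 < ε → ∃ (T : E ≃ₗᵢ[ℝ] E) (V : Submodule ℝ E), FiniteDimensional ℝ V ∧
      Module.finrank ℝ V ≤ k ∧ (∃ z, ‖z‖ ≤ 1 ∧ δ ≤ ‖T z - z‖) ∧
      ∀ z, ∃ v ∈ V, ‖T z - z - v‖ ≤ ε * ‖z‖) (x y : E) :
    ‖x + y‖ ^ 2 + ‖x - y‖ ^ 2 = 2 * ‖x‖ ^ 2 + 2 * ‖y‖ ^ 2 := by
  choose T V hfd hk hz hzV using fun n : ℕ => h (1 / ((n : ℝ) + 1)) (by positivity)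
  choose z₀ hz₀ using hz
  set Ŝ : Up E ≃ₗᵢ[ℝ] Up E := upIso T with hŜ
  have hfin : FiniteDimensional ℝ (upSub V) := upSub_fd hfd hk
  have h1 : ∀ z : Up E, Ŝ z - z ∈ upSub V := by
    intro z
    obtain ⟨z, rfl⟩ := Submodule.Quotient.mk_surjective _ z
    choose v hvV hv using fun n => hzV n (z n)
    have hle : ∀ n : ℕ, 1 / ((n : ℝ) + 1) ≤ 1 := fun n => by
      rw [div_le_one (by positivity)]
      have : (0 : ℝ) ≤ n := Nat.cast_nonneg n
      linarith
    have hzn : ∀ n, ‖z n‖ ≤ ‖z‖ := fun n => lp.norm_apply_le_norm (by simp) z n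
    have hvb : ∀ n, ‖v n‖ ≤ 3 * ‖z‖ := fun n => by
      have h2 : ‖v n‖ ≤ ‖T n (z n) - z n‖ + ‖T n (z n) - z n - v n‖ := by
        have := norm_sub_le (T n (z n) - z n) (T n (z n) - z n - v n)
        rwa [_root_.sub_sub_cancel] at this
      have h3 : ‖T n (z n) - z n‖ ≤ 2 * ‖z n‖ := by
        refine (norm_sub_le _ _).trans ?_
        rw [(T n).norm_map]
        linarith
      have h4 := hv n
      have h5 := mul_le_mul_of_nonneg_right (hle n) (norm_nonneg (z n))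
      linarith [hzn n]
    refine ⟨⟨v, memℓp_infty ⟨3 * ‖z‖, ?_⟩⟩, hvV, ?_⟩
    · rintro _ ⟨n, rfl⟩
      exact hvb n
    · rw [upIso_mk, ← Submodule.Quotient.mk_sub, eq_comm, Submodule.Quotient.eq, mem_Nl]
      have h6 : Tendsto (fun n : ℕ => 1 / ((n : ℝ) + 1) * ‖z‖) (UF : Filter ℕ) (𝓝 0) := by
        have := ((tendsto_one_div_add_atTop_nhds_zero_nat (𝕜 := ℝ)).mono_left
          (Nat.hyperfilter_le_atTop)).mul_const ‖z‖
        simpa using this
      refine squeeze_zero (fun n => norm_nonneg _) (fun n => ?_) h6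
      show ‖T n (z n) - z n - v n‖ ≤ _
      exact (hv n).trans (mul_le_mul_of_nonneg_left (hzn n) (by positivity))
  have h3 := adj_of_isometry Ŝ h1
  have h4 : ((Ŝ.toContinuousLinearEquiv : Up E →L[ℝ] Up E) - 1) ≠ 0 := by
    intro h0
    set w : Xs E := ⟨z₀, memℓp_infty ⟨1, by rintro _ ⟨n, rfl⟩; exact (hz₀ n).1⟩⟩ with hw
    have h5 : Ŝ (Submodule.Quotient.mk w) - Submodule.Quotient.mk w = 0 := by
      have := congrArg (fun u : Up E →L[ℝ] Up E => u (Submodule.Quotient.mk w)) h0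
      simpa using this
    rw [upIso_mk, ← Submodule.Quotient.mk_sub, Submodule.Quotient.mk_eq_zero, mem_Nl] at h5
    have h6 : δ ≤ 0 := ge_of_tendsto h5 (Filter.Eventually.of_forall fun n => (hz₀ n).2)
    linarith
  have h5 := par_exact (up_transitive htr) h3 h4 (emb x) (emb y)
  rw [← map_add, ← map_sub, LinearIsometry.norm_map, LinearIsometry.norm_map,
    LinearIsometry.norm_map, LinearIsometry.norm_map] at h5
  exact h5

end Pool.Agent.W5h45.BM
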